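import Pool.Agent.V11297.PowCex3

/-!
# The unions of sets of minimal lengths `𝒰^m_k(𝒫_{fin,1}(H))` need not be intervals

The definitions (`Divs`, `UnitDivisor`, `ProperDivisor`, `IsIrred`, `IsInterval`, `PFin` of
`Pool.Agent.V11297.PowMon`; `IsFactorization`, `DivEquiv`, `IsMinimalFactorization`,
`MinLengthSet`, `UnionMinLengths` of `Pool.Agent.V11297.PowCex`) are those of the problem.
-/

namespace Pool.Agent.Results.MP_43520b_al.MinUnionsGap

open scoped Pointwise
open Classical
open Pool.Agent.V11297.PowMon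

/-- There is a monoid `H` with seven elements such that `𝒰^m_4(𝒫_{fin,1}(H))` contains `2` and `4`
but not `3`, so it is not an interval. -/
theorem result : ∃ (H : Type) (_ : Monoid H), Nat.card H = 7 ∧
    2 ∈ UnionMinLengths (PFin H) 4 ∧ 4 ∈ UnionMinLengths (PFin H) 4 ∧
    3 ∉ UnionMinLengths (PFin H) 4 ∧ ¬ IsInterval (UnionMinLengths (PFin H) 4) := by
  refine ⟨E7, inferInstance, ?_, ⟨X0, four_mem, two_mem⟩, ⟨X0, four_mem, four_mem⟩,
    fun ⟨X, hX4, hX3⟩ => three_not_mem hX4 hX3, not_interval_four⟩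
  have h : (Finset.univ : Finset (Fin 7)).card = 7 := rfl
  let f : E7 → Fin 7 := fun x => match x with
    | .e => 0 | .a1 => 1 | .a2 => 2 | .a3 => 3 | .a4 => 4 | .a5 => 5 | .a6 => 6
  have hf : Function.Bijective f := by
    constructor
    · intro x y hxy
      cases x <;> cases y <;> first | rfl | (exact absurd hxy (by decide))
    · intro i
      fin_cases i
      · exact ⟨.e, rfl⟩
      · exact ⟨.a1, rfl⟩
      · exact ⟨.a2, rfl⟩
      · exact ⟨.a3, rfl⟩
      · exact ⟨.a4, rfl⟩
      · exact ⟨.a5, rfl⟩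
      · exact ⟨.a6, rfl⟩
  rw [Nat.card_congr (Equiv.ofBijective f hf), Nat.card_fin]

end Pool.Agent.Results.MP_43520b_al.MinUnionsGap
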