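import Pool.Agent.V11297.PowMon5

/-!
# The unions of length sets `𝒰_k(𝒫_{fin,1}(H))` are intervals

The definitions (`Divs`, `UnitDivisor`, `ProperDivisor`, `IsIrred`, `LengthSet`, `UnionLengths`,
`IsInterval`, `PFin`) are those of `Pool.Agent.V11297.PowMon`.
-/

namespace Pool.Agent.Results.MP_43520b_al.UnionsIntervals

open scoped Pointwise
open Classical
open Pool.Agent.V11297.PowMon

/-- For every monoid `H` and every `k ≥ 1` the set `𝒰_k(𝒫_{fin,1}(H))` is an interval. -/
theorem result.{u} (H : Type u) [Monoid H] (k : ℕ) (hk : 1 ≤ k) :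
    IsInterval (UnionLengths (PFin H) k) :=
  union_interval H k hk

end Pool.Agent.Results.MP_43520b_al.UnionsIntervals
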